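import Mathlib
import Pool.Agent.Q95.CycFam

/-!
Problem MP_50682e_co: saturation numbers of the families of cycles with lengths in `[4, r]`.
-/

namespace Pool.Agent.Results.MP_50682e_co.BelowFiveQuarters

open Pool.Agent.Q95.CycFam

/-- For every `r ≥ 6` the saturation number of the cycles with lengths in `[4, r]` lies strictly
below `⌈5n/4 - 3/2⌉` for every `n ≥ r + 1` with `n ≡ r + 1 (mod 4)`: it is at most
`5n/4 - (r+1)/4`.  In particular no threshold `n(r)` exists, for any `r ≥ 6`. -/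
theorem result : ∀ r : ℕ, 6 ≤ r →
    (∀ n : ℕ, r + 1 ≤ n → n % 4 = (r + 1) % 4 →
      (sat n (Set.Icc 4 r) : ℚ) ≤ 5 * (n : ℚ) / 4 - ((r : ℚ) + 1) / 4 ∧
      (sat n (Set.Icc 4 r) : ℤ) < ⌈5 * (n : ℚ) / 4 - 3 / 2⌉) ∧
    ¬ ∃ n₀ : ℕ, ∀ n : ℕ, n₀ ≤ n →
      (sat n (Set.Icc 4 r) : ℤ) = ⌈5 * (n : ℚ) / 4 - 3 / 2⌉ := by
  intro r hr
  have main : ∀ n : ℕ, r + 1 ≤ n → n % 4 = (r + 1) % 4 →
      (sat n (Set.Icc 4 r) : ℚ) ≤ 5 * (n : ℚ) / 4 - ((r : ℚ) + 1) / 4 ∧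
      (sat n (Set.Icc 4 r) : ℤ) < ⌈5 * (n : ℚ) / 4 - 3 / 2⌉ := by
    intro n hn hmod
    obtain ⟨k, rfl⟩ : ∃ k, n = 4 * k + r + 1 := ⟨(n - (r + 1)) / 4, by omega⟩
    have h1 : (sat (4 * k + r + 1) (Set.Icc 4 r) : ℚ) ≤ 5 * k + r + 1 := by
      exact_mod_cast sat_le (k := k) hr
    have hr' : (6 : ℚ) ≤ r := by exact_mod_cast hr
    have h2 : (sat (4 * k + r + 1) (Set.Icc 4 r) : ℚ) ≤
        5 * ((4 * k + r + 1 : ℕ) : ℚ) / 4 - ((r : ℚ) + 1) / 4 := by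
      push_cast
      linarith
    refine ⟨h2, ?_⟩
    rw [Int.lt_ceil]
    push_cast
    linarith
  refine ⟨main, ?_⟩
  rintro ⟨n₀, h⟩
  have h1 := main (4 * n₀ + r + 1) (by omega) (by omega)
  have h2 := h (4 * n₀ + r + 1) (by omega)
  omega

end Pool.Agent.Results.MP_50682e_co.BelowFiveQuarters
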